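import Mathlib
import Pool.Agent.Helper95.CutoffDefs
import Pool.Agent.Helper95.CutoffProof

set_option autoImplicit false

open Filter Topology Matrix

namespace Pool.Agent.Results.MP_8d2225_pr.Disproof

open Pool.Agent.Helper95.Cutoff

/-- **Disproof of Q1.** There are finite abelian groups `G n` with `|G n| → ∞` and symmetric
generating sets `S n ∌ 0` such that the lazy simple random walks on `Cay(G n, S n)` satisfy the
product condition but do not have cutoff in total variation. -/
theorem result :
    ∃ (G : ℕ → Type) (_ : ∀ n, AddCommGroup (G n)) (_ : ∀ n, Fintype (G n))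
      (_ : ∀ n, DecidableEq (G n)) (S : ∀ n, Finset (G n)),
      Tendsto (fun n => Fintype.card (G n)) atTop atTop ∧
      (∀ n, ∀ s ∈ S n, -s ∈ S n) ∧
      (∀ n, (0 : G n) ∉ S n) ∧
      (∀ n, AddSubgroup.closure (S n : Set (G n)) = ⊤) ∧
      ProductCondition (fun n => lazyWalk (S n)) (fun n => unif (G n)) ∧
      ¬ HasCutoff (fun n => lazyWalk (S n)) (fun n => unif (G n)) := by
  refine ⟨fun n => (Fin (4 * (n + 40) + 2) → ZMod (pr n)) × ZMod (md n),
    fun n => inferInstance, fun n => inferInstance, fun n => inferInstance,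
    fun n => genSet (rsSet (pr n) (4 * (n + 40))), ?_, ?_, ?_, ?_, ?_, ?_⟩
  · refine tendsto_atTop_mono (fun n => ?_) tendsto_id
    simp only [id_eq]
    rw [Fintype.card_prod, ZMod.card, md]
    have h1 : 1 ≤ Fintype.card (Fin (4 * (n + 40) + 2) → ZMod (pr n)) := Fintype.card_pos
    have h2 : 1 ≤ pr n ^ (4 * (n + 40)) := Nat.one_le_iff_ne_zero.2
      (pow_ne_zero _ (pr_prime n).out.ne_zero)
    calc n ≤ n + 40 := by omega
      _ = 1 * ((n + 40) * 1) := by ring
      _ ≤ _ := Nat.mul_le_mul h1 (Nat.mul_le_mul le_rfl h2)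
  · intro n
    exact genSet_neg _ (neg_mem_rsSet _ _)
  · intro n
    exact genSet_zero _
  · intro n
    refine genSet_closure _ ?_
    rw [← Finset.card_pos, card_rsSet]
    have := pr_ge n
    exact Nat.mul_pos (by omega) (by omega)
  · rw [ProductCondition]
    refine tendsto_atTop_mono (fun n => (bounds_n n).1) ?_
    refine Tendsto.atTop_div_const (by norm_num) ?_
    exact tendsto_atTop_add_const_right _ _ tendsto_natCast_atTop_atTop
  · intro hcut
    have := hcut (1 / 4) (by norm_num) (by norm_num)
    have h2 := ge_of_tendsto' this (fun n => (bounds_n n).2)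
    norm_num at h2

end Pool.Agent.Results.MP_8d2225_pr.Disproof
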